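import Mathlib

/-!
# Normalised biharmonic Poisson transforms of order `R`

If the biharmonic Poisson transform `f` of an analytic functional `ν` on the unit circle satisfies
`|f(z)| ≤ C (1 + R)` then `ν` is a measure with bounded density.

The `n`-th Fourier coefficient of `f(r ·)` is `c_n(r) ν_n`, where `c_n(r) / c_0(r) → 1` as `r → 1` and
`c_0(r) = -log(1 - r²) ~ R`. Hence the uniformly bounded functions `f(r ·) / c_0(r)` converge weakly.
-/

set_option autoImplicit false

namespace Pool.Agent.Results.MP_a0f451_an.BoundedDensity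

open MeasureTheory Filter Topology AddCircle Complex ComplexConjugate

/-- The point `e^{2πit}` of the unit circle, `t ∈ ℝ/ℤ`. -/
noncomputable def pt (t : UnitAddCircle) : ℂ := (AddCircle.toCircle t : ℂ)

/-- The annulus `1/q < |w| < q`. -/
def annulus (q : ℝ) : Set ℂ := {w | q⁻¹ < ‖w‖ ∧ ‖w‖ < q}

theorem isOpen_annulus (q : ℝ) : IsOpen (annulus q) :=
  (isOpen_lt continuous_const continuous_norm).inter (isOpen_lt continuous_norm continuous_const)

theorem annulus_mono {q q' : ℝ} (hq : 0 < q) (h : q ≤ q') : annulus q ⊆ annulus q' := by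
  intro w hw
  exact ⟨lt_of_le_of_lt (inv_anti₀ hq h) hw.1, lt_of_lt_of_le hw.2 h⟩

/-- The space of real-analytic functions on the unit circle (parametrised by `ℝ/ℤ`): the functions
that are restrictions of functions holomorphic on some annulus `1/q < |w| < q`, `q > 1`. -/
def RA : Submodule ℂ (UnitAddCircle → ℂ) where
  carrier := {g | ∃ q : ℝ, 1 < q ∧ ∃ G : ℂ → ℂ, DifferentiableOn ℂ G (annulus q) ∧
    ∀ t, g t = G (pt t)}
  zero_mem' := ⟨2, by norm_num, fun _ => 0, differentiableOn_const _, fun _ => rfl⟩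
  add_mem' := by
    rintro g g' ⟨q, hq, G, hG, h⟩ ⟨q', hq', G', hG', h'⟩
    refine ⟨min q q', lt_min hq hq', fun w => G w + G' w, ?_, fun t => ?_⟩
    · exact (hG.mono (annulus_mono (by positivity) (min_le_left _ _))).add
        (hG'.mono (annulus_mono (by positivity) (min_le_right _ _)))
    · simp [h, h']
  smul_mem' := by
    rintro c g ⟨q, hq, G, hG, h⟩
    exact ⟨q, hq, fun w => c * G w, hG.const_mul c, fun t => by simp [h]⟩

/-- Analytic functionals: continuous linear functionals on the space of real-analytic functions on the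
circle. Continuity for the (inductive limit) topology means: for every `q > 1` the functional is
bounded, with respect to the supremum norm on the annulus `1/q < |w| < q`, on the restrictions to the
circle of bounded holomorphic functions on that annulus. -/
structure AnalyticFunctional where
  /-- the functional -/
  toLin : RA →ₗ[ℂ] ℂ
  continuity : ∀ q : ℝ, 1 < q → ∃ C : ℝ, ∀ (G : ℂ → ℂ) (M : ℝ),
    DifferentiableOn ℂ G (annulus q) → (∀ w ∈ annulus q, ‖G w‖ ≤ M) →
    ∀ g : RA, (∀ t, (g : UnitAddCircle → ℂ) t = G (pt t)) → ‖toLin g‖ ≤ C * M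

/-- The Poisson kernel. -/
noncomputable def poisson (z ξ : ℂ) : ℝ := (1 - ‖z‖ ^ 2) / ‖ξ - z‖ ^ 2

/-- The biharmonic Poisson kernel `P log P`, as a function of the point `e^{2πit}`. -/
noncomputable def kernel (z : ℂ) (t : UnitAddCircle) : ℂ :=
  ((poisson z (pt t) * Real.log (poisson z (pt t)) : ℝ) : ℂ)

/-! ### Summability over the integers -/

theorem summable_pow_natAbs {s : ℝ} (h0 : 0 ≤ s) (h1 : s < 1) :
    Summable fun k : ℤ => s ^ k.natAbs := by
  apply Summable.of_nat_of_neg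
  · simpa using summable_geometric_of_lt_one h0 h1
  · simpa using summable_geometric_of_lt_one h0 h1

theorem pt_norm (t : UnitAddCircle) : ‖pt t‖ = 1 := Circle.norm_coe _

theorem pt_ne_zero (t : UnitAddCircle) : pt t ≠ 0 := by
  intro h
  have := pt_norm t
  rw [h] at this
  simp at this

theorem fourier_eq (n : ℤ) (t : UnitAddCircle) : fourier n t = pt t ^ n := by
  rw [fourier_apply, pt, toCircle_zsmul]
  simp

theorem pt_mem_annulus {q : ℝ} (hq : 1 < q) (t : UnitAddCircle) : pt t ∈ annulus q := by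
  refine ⟨?_, ?_⟩
  · rw [pt_norm]; exact inv_lt_one_of_one_lt₀ hq
  · rw [pt_norm]; exact hq

theorem norm_zpow_le {q : ℝ} (hq : 1 < q) {w : ℂ} (hw : w ∈ annulus q) (n : ℤ) :
    ‖w ^ n‖ ≤ q ^ n.natAbs := by
  have hw0 : 0 < ‖w‖ := lt_trans (by positivity) hw.1
  rw [norm_zpow]
  rcases Int.natAbs_eq n with h | h
  · rw [h, zpow_natCast]
    simp only [Int.natAbs_natCast]
    exact pow_le_pow_left₀ hw0.le hw.2.le _
  · rw [h, zpow_neg, zpow_natCast]
    simp only [Int.natAbs_neg, Int.natAbs_natCast]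
    rw [← inv_pow]
    apply pow_le_pow_left₀ (by positivity)
    rw [inv_le_comm₀ hw0 (by positivity)]
    exact hw.1.le

/-- Laurent series with geometrically decaying coefficients. -/
theorem laurent {d : ℤ → ℂ} {L s : ℝ} (h0 : 0 < s) (h1 : s < 1)
    (hd : ∀ n, ‖d n‖ ≤ L * s ^ n.natAbs) :
    ∃ q : ℝ, 1 < q ∧ (Summable fun n : ℤ => L * (s * q) ^ n.natAbs) ∧
      (∀ n : ℤ, ∀ w ∈ annulus q, ‖d n * w ^ n‖ ≤ L * (s * q) ^ n.natAbs) ∧
      ∀ F : Set ℤ, DifferentiableOn ℂ (fun w => ∑' n : F, d n * w ^ (n : ℤ)) (annulus q) := by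
  obtain ⟨q, hq1, hq2⟩ := exists_between ((one_lt_inv₀ h0).2 h1)
  have hq0 : 0 < q := by positivity
  have hL : 0 ≤ L := by
    have := (norm_nonneg _).trans (hd 0)
    simpa using this
  have hsq : s * q < 1 := by
    calc s * q < s * s⁻¹ := by gcongr
    _ = 1 := mul_inv_cancel₀ h0.ne'
  have hsum : Summable fun n : ℤ => L * (s * q) ^ n.natAbs :=
    (summable_pow_natAbs (by positivity) hsq).mul_left L
  have hle : ∀ n : ℤ, ∀ w ∈ annulus q, ‖d n * w ^ n‖ ≤ L * (s * q) ^ n.natAbs := by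
    intro n w hw
    rw [norm_mul, mul_pow, ← mul_assoc]
    exact mul_le_mul (hd n) (norm_zpow_le hq1 hw n) (norm_nonneg _) (by positivity)
  refine ⟨q, hq1, hsum, hle, fun F => ?_⟩
  apply differentiableOn_tsum_of_summable_norm (u := fun n : F => L * (s * q) ^ (n : ℤ).natAbs)
    (hsum.subtype _) _ (isOpen_annulus q) (fun n w hw => hle n w hw)
  intro n
  apply DifferentiableOn.const_mul
  intro w hw
  have hw0 : w ≠ 0 := by
    intro h
    have := hw.1
    rw [h, norm_zero] at this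
    exact absurd this (not_lt.2 (by positivity))
  exact (differentiableAt_zpow.2 (Or.inl hw0)).differentiableWithinAt

/-- A function on the circle with geometrically decaying Fourier coefficients is real-analytic and
analytic functionals can be applied termwise. -/
theorem apply_series (ν : AnalyticFunctional) {d : ℤ → ℂ} {L s : ℝ} (h0 : 0 < s) (h1 : s < 1)
    (hd : ∀ n, ‖d n‖ ≤ L * s ^ n.natAbs) {g : UnitAddCircle → ℂ}
    (hg : ∀ t, HasSum (fun n => d n * pt t ^ n) (g t)) :
    ∃ hmem : g ∈ RA, ∀ (e : ℤ → RA) (_ : ∀ n t, (e n : UnitAddCircle → ℂ) t = pt t ^ n),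
      HasSum (fun n => d n * ν.toLin (e n)) (ν.toLin ⟨g, hmem⟩) := by
  obtain ⟨q, hq1, hsum, hle, hdiff⟩ := laurent h0 h1 hd
  have hmem : g ∈ RA := by
    refine ⟨q, hq1, fun w => ∑' n : (Set.univ : Set ℤ), d n * w ^ (n : ℤ), hdiff Set.univ,
      fun t => ?_⟩
    rw [← (hg t).tsum_eq]
    exact (tsum_univ fun n => d n * pt t ^ n).symm
  refine ⟨hmem, fun e he => ?_⟩
  obtain ⟨C, hC⟩ := ν.continuity q hq1
  have hC' : ∀ F : Finset ℤ, ‖ν.toLin ⟨g, hmem⟩ - ∑ n ∈ F, d n * ν.toLin (e n)‖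
      ≤ C * ∑' n : ((F : Set ℤ)ᶜ : Set ℤ), L * (s * q) ^ (n : ℤ).natAbs := by
    intro F
    have h2 : ν.toLin ⟨g, hmem⟩ - ∑ n ∈ F, d n * ν.toLin (e n)
        = ν.toLin (⟨g, hmem⟩ - ∑ n ∈ F, d n • e n) := by
      rw [map_sub, map_sum]
      simp
    rw [h2]
    apply hC (fun w => ∑' n : ((F : Set ℤ)ᶜ : Set ℤ), d n * w ^ (n : ℤ)) _ (hdiff _)
    · intro w hw
      apply tsum_of_norm_bounded (hsum.subtype _).hasSum
      intro n
      exact hle n w hw
    · intro t
      have h3 := (hg t).summable.sum_add_tsum_compl (s := F)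
      rw [(hg t).tsum_eq] at h3
      have h4 : ((⟨g, hmem⟩ - ∑ n ∈ F, d n • e n : RA) : UnitAddCircle → ℂ) t
          = g t - ∑ n ∈ F, d n * pt t ^ n := by
        simp [he]
      rw [h4, ← h3]
      simp
  have htail : Tendsto (fun F : Finset ℤ => C * ∑' n : ((F : Set ℤ)ᶜ : Set ℤ),
      L * (s * q) ^ (n : ℤ).natAbs) atTop (𝓝 0) := by
    have := (tendsto_tsum_compl_atTop_zero fun n : ℤ => L * (s * q) ^ n.natAbs).const_mul C
    rw [mul_zero] at this
    exact this
  rw [HasSum, tendsto_iff_norm_sub_tendsto_zero]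
  apply squeeze_zero (fun F => norm_nonneg _) (fun F => ?_) htail
  rw [norm_sub_rev]
  exact hC' F


/-! ### Expansion of the kernel -/

/-- Coefficients of `log P`. -/
noncomputable def b (r : ℝ) (k : ℤ) : ℝ :=
  if k = 0 then Real.log (1 - r ^ 2) else r ^ k.natAbs / k.natAbs

theorem hasSum_int {M : Type*} [AddCommMonoid M] [TopologicalSpace M] [ContinuousAdd M]
    {f : ℤ → M} {x y z : M} (h0 : f 0 = x) (h1 : HasSum (fun n : ℕ => f (n + 1)) y)
    (h2 : HasSum (fun n : ℕ => f (-(n + 1))) z) : HasSum f (x + y + z) := by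
  apply HasSum.of_nat_of_neg_add_one _ h2
  have := h1.zero_add (f := fun n : ℕ => f n)
  simp only [Nat.cast_zero, h0] at this
  exact this

theorem log_series {r : ℝ} (h0 : 0 ≤ r) (h1 : r < 1) {u : ℂ} (hu : ‖u‖ = 1) :
    HasSum (fun k : ℤ => (b r k : ℂ) * u ^ k)
      ((Real.log (1 - r ^ 2) : ℂ) - 2 * (Real.log ‖1 - r * u‖ : ℂ)) := by
  have hru : ‖(r : ℂ) * u‖ < 1 := by
    rw [norm_mul, hu, mul_one, Complex.norm_real, Real.norm_eq_abs, abs_of_nonneg h0]; exact h1
  have hru' : ‖(r : ℂ) * conj u‖ < 1 := by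
    rw [norm_mul, RCLike.norm_conj, hu, mul_one, Complex.norm_real, Real.norm_eq_abs,
      abs_of_nonneg h0]
    exact h1
  have hinv : u⁻¹ = conj u := by
    rw [Complex.inv_def, Complex.normSq_eq_norm_sq, hu]; simp
  have h2 := Complex.hasSum_taylorSeries_neg_log' hru
  have h3 := Complex.hasSum_taylorSeries_neg_log' hru'
  have h4 : -Complex.log (1 - r * conj u) = conj (-Complex.log (1 - r * u)) := by
    rw [map_neg, ← Complex.log_conj]
    · simp
    · intro h
      obtain ⟨h5, -⟩ := Complex.arg_eq_pi_iff.1 h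
      have h6 : 0 < (1 - (r : ℂ) * u).re := by
        have := (Complex.re_le_norm ((r : ℂ) * u)).trans_lt hru
        rw [Complex.sub_re, Complex.one_re]
        linarith
      linarith
  have h5 : -Complex.log (1 - r * u) + -Complex.log (1 - r * conj u)
      = - 2 * (Real.log ‖1 - r * u‖ : ℂ) := by
    rw [h4, Complex.add_conj]
    simp [Complex.log_re]
  have key := hasSum_int (f := fun k : ℤ => (b r k : ℂ) * u ^ k) (x := (Real.log (1 - r ^ 2) : ℂ))
    (y := -Complex.log (1 - r * u)) (z := -Complex.log (1 - r * conj u)) (by simp [b]) ?_ ?_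
  · convert! key using 1
    rw [add_assoc, h5]
    ring
  · convert! h2 using 1
    funext n
    have h6 : ((n : ℤ) + 1) ≠ 0 := by omega
    have h7 : ((n : ℤ) + 1).natAbs = n + 1 := by omega
    simp only [b, h6, if_false, h7]
    rw [show ((n : ℤ) + 1) = ((n + 1 : ℕ) : ℤ) by push_cast; rfl, zpow_natCast, mul_pow]
    push_cast
    ring
  · convert! h3 using 1
    funext n
    have h6 : (-((n : ℤ) + 1)) ≠ 0 := by omega
    have h7 : (-((n : ℤ) + 1)).natAbs = n + 1 := by omega
    simp only [b, h6, if_false, h7]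
    rw [show (-((n : ℤ) + 1)) = -((n + 1 : ℕ) : ℤ) by push_cast; rfl, zpow_neg, zpow_natCast,
      ← inv_pow, hinv, mul_pow]
    push_cast
    ring

theorem poisson_series {r : ℝ} (h0 : 0 ≤ r) (h1 : r < 1) {u : ℂ} (hu : ‖u‖ = 1) :
    HasSum (fun k : ℤ => ((r ^ k.natAbs : ℝ) : ℂ) * u ^ k)
      (((1 - r ^ 2) / ‖1 - r * u‖ ^ 2 : ℝ) : ℂ) := by
  have hru : ‖(r : ℂ) * u‖ < 1 := by
    rw [norm_mul, hu, mul_one, Complex.norm_real, Real.norm_eq_abs, abs_of_nonneg h0]; exact h1
  have hru' : ‖(r : ℂ) * conj u‖ < 1 := by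
    rw [norm_mul, RCLike.norm_conj, hu, mul_one, Complex.norm_real, Real.norm_eq_abs,
      abs_of_nonneg h0]
    exact h1
  have hinv : u⁻¹ = conj u := by
    rw [Complex.inv_def, Complex.normSq_eq_norm_sq, hu]; simp
  have huu : u * conj u = 1 := by rw [Complex.mul_conj, Complex.normSq_eq_norm_sq, hu]; simp
  have h2 := (hasSum_geometric_of_norm_lt_one hru).mul_left ((r : ℂ) * u)
  have h3 := (hasSum_geometric_of_norm_lt_one hru').mul_left ((r : ℂ) * conj u)
  have hne : (1 : ℂ) - r * u ≠ 0 := by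
    intro h
    have : (r : ℂ) * u = 1 := (sub_eq_zero.1 h).symm
    rw [this] at hru
    simp at hru
  have hne' : (1 : ℂ) - r * conj u ≠ 0 := by
    intro h
    have : (r : ℂ) * conj u = 1 := (sub_eq_zero.1 h).symm
    rw [this] at hru'
    simp at hru'
  have key := hasSum_int (f := fun k : ℤ => ((r ^ k.natAbs : ℝ) : ℂ) * u ^ k) (x := (1 : ℂ))
    (y := (r : ℂ) * u * (1 - r * u)⁻¹) (z := (r : ℂ) * conj u * (1 - r * conj u)⁻¹)
    (by simp) ?_ ?_
  · convert! key using 1
    have h8 : ((‖1 - (r : ℂ) * u‖ ^ 2 : ℝ) : ℂ) = (1 - r * u) * (1 - r * conj u) := by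
      rw [← Complex.normSq_eq_norm_sq, ← Complex.mul_conj]
      simp
    rw [Complex.ofReal_div, h8]
    push_cast
    field_simp
    linear_combination ((r : ℂ) ^ 2) * huu
  · convert! h2 using 1
    funext n
    have h7 : ((n : ℤ) + 1).natAbs = n + 1 := by omega
    simp only [h7]
    rw [show ((n : ℤ) + 1) = ((n + 1 : ℕ) : ℤ) by push_cast; rfl, zpow_natCast, mul_pow]
    push_cast
    ring
  · convert! h3 using 1
    funext n
    have h7 : (-((n : ℤ) + 1)).natAbs = n + 1 := by omega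
    simp only [h7]
    rw [show (-((n : ℤ) + 1)) = -((n + 1 : ℕ) : ℤ) by push_cast; rfl, zpow_neg, zpow_natCast,
      ← inv_pow, hinv, mul_pow]
    push_cast
    ring


/-- The Fourier coefficients of the kernel. -/
noncomputable def c (r : ℝ) (n : ℤ) : ℝ := ∑' k : ℤ, b r k * r ^ (n - k).natAbs

theorem abs_b_le {r : ℝ} (h0 : 0 ≤ r) (h1 : r < 1) (k : ℤ) :
    |b r k| ≤ (1 - Real.log (1 - r ^ 2)) * r ^ k.natAbs := by
  have hr2 : 0 < 1 - r ^ 2 := by nlinarith
  have hlog : Real.log (1 - r ^ 2) ≤ 0 := Real.log_nonpos hr2.le (by nlinarith)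
  unfold b
  split_ifs with h
  · subst h
    rw [abs_of_nonpos hlog]
    simp
  · have hk : (1 : ℝ) ≤ k.natAbs := by
      have : 1 ≤ k.natAbs := Nat.one_le_iff_ne_zero.2 (Int.natAbs_ne_zero.2 h)
      exact_mod_cast this
    rw [abs_of_nonneg (by positivity)]
    calc r ^ k.natAbs / k.natAbs ≤ r ^ k.natAbs := div_le_self (by positivity) hk
    _ ≤ (1 - Real.log (1 - r ^ 2)) * r ^ k.natAbs := by
        apply le_mul_of_one_le_left (by positivity)
        linarith

theorem summable_b {r : ℝ} (h0 : 0 ≤ r) (h1 : r < 1) : Summable fun k : ℤ => |b r k| :=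
  Summable.of_nonneg_of_le (fun _ => abs_nonneg _) (abs_b_le h0 h1)
    ((summable_pow_natAbs h0 h1).mul_left _)

theorem summable_b_mul {r : ℝ} (h0 : 0 ≤ r) (h1 : r < 1) (n : ℤ) :
    Summable fun k : ℤ => b r k * r ^ (n - k).natAbs := by
  apply Summable.of_norm_bounded (summable_b h0 h1)
  intro k
  rw [Real.norm_eq_abs, abs_mul]
  apply mul_le_of_le_one_right (abs_nonneg _)
  rw [abs_of_nonneg (by positivity)]
  exact pow_le_one₀ h0 h1.le

theorem abs_c_le {r : ℝ} (h0 : 0 ≤ r) (h1 : r < 1) :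
    ∃ L, ∀ n, |c r n| ≤ L * (√r) ^ n.natAbs := by
  have hr2 : 0 < 1 - r ^ 2 := by nlinarith
  have hlog : Real.log (1 - r ^ 2) ≤ 0 := Real.log_nonpos hr2.le (by nlinarith)
  set s := √r with hs
  have hs0 : 0 ≤ s := Real.sqrt_nonneg r
  have hs1 : s < 1 := by rw [hs, Real.sqrt_lt' one_pos]; simpa using h1
  have hss : r = s ^ 2 := (Real.sq_sqrt h0).symm
  have hsum := summable_pow_natAbs hs0 hs1
  refine ⟨(1 - Real.log (1 - r ^ 2)) * ∑' k : ℤ, s ^ k.natAbs, fun n => ?_⟩
  have h2 : ∀ k : ℤ, ‖b r k * r ^ (n - k).natAbs‖ ≤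
      (1 - Real.log (1 - r ^ 2)) * s ^ n.natAbs * s ^ k.natAbs := by
    intro k
    rw [norm_mul, Real.norm_eq_abs, Real.norm_eq_abs, abs_of_nonneg (by positivity : 0 ≤ r ^ (n - k).natAbs)]
    calc |b r k| * r ^ (n - k).natAbs
        ≤ ((1 - Real.log (1 - r ^ 2)) * r ^ k.natAbs) * r ^ (n - k).natAbs := by
          gcongr
          exact abs_b_le h0 h1 k
      _ = (1 - Real.log (1 - r ^ 2)) * s ^ (2 * (k.natAbs + (n - k).natAbs)) := by
          rw [hss]; ring
      _ ≤ (1 - Real.log (1 - r ^ 2)) * s ^ (n.natAbs + k.natAbs) := by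
          apply mul_le_mul_of_nonneg_left _ (by linarith)
          apply pow_le_pow_of_le_one hs0 hs1.le
          omega
      _ = _ := by ring
  have h3 : ‖c r n‖ ≤ ∑' k : ℤ, (1 - Real.log (1 - r ^ 2)) * s ^ n.natAbs * s ^ k.natAbs :=
    tsum_of_norm_bounded (hsum.mul_left _).hasSum h2
  rw [tsum_mul_left, Real.norm_eq_abs] at h3
  calc |c r n| ≤ _ := h3
  _ = _ := by ring

/-- The shear `(n, k) ↦ (n - k, k)`. -/
def E : ℤ × ℤ ≃ ℤ × ℤ where
  toFun := fun x => (x.1 - x.2, x.2)
  invFun := fun x => (x.1 + x.2, x.2)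
  left_inv := fun x => by simp
  right_inv := fun x => by simp

theorem conv_series {f g : ℤ → ℂ} {A B : ℂ} (hnP : Summable fun k => ‖f k‖)
    (hnL : Summable fun k => ‖g k‖) (hP : HasSum f A) (hL : HasSum g B) {h : ℤ → ℂ}
    (hh : ∀ n, HasSum (fun k => f (n - k) * g k) (h n)) : HasSum h (A * B) := by
  have hprod := hP.mul hL (summable_mul_of_summable_norm hnP hnL)
  have h2 := (E.hasSum_iff).2 hprod
  exact h2.prod_fiberwise hh

/-- The Fourier expansion of `P log P`. -/
theorem kernel_series {r : ℝ} (h0 : 0 ≤ r) (h1 : r < 1) {u : ℂ} (hu : ‖u‖ = 1) :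
    HasSum (fun n : ℤ => (c r n : ℂ) * u ^ n)
      (((1 - r ^ 2) / ‖1 - r * u‖ ^ 2 * Real.log ((1 - r ^ 2) / ‖1 - r * u‖ ^ 2) : ℝ) : ℂ) := by
  have hr2 : 0 < 1 - r ^ 2 := by nlinarith
  have hu0 : u ≠ 0 := by
    intro h
    rw [h] at hu
    simp at hu
  have hru : ‖(r : ℂ) * u‖ < 1 := by
    rw [norm_mul, hu, mul_one, Complex.norm_real, Real.norm_eq_abs, abs_of_nonneg h0]; exact h1
  have hne : (1 : ℂ) - r * u ≠ 0 := by
    intro h
    have : (r : ℂ) * u = 1 := (sub_eq_zero.1 h).symm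
    rw [this] at hru
    simp at hru
  have hnn : ‖(1 : ℂ) - r * u‖ ≠ 0 := norm_ne_zero_iff.2 hne
  have hlog : ((Real.log (1 - r ^ 2) : ℂ) - 2 * (Real.log ‖1 - r * u‖ : ℂ))
      = ((Real.log ((1 - r ^ 2) / ‖1 - r * u‖ ^ 2) : ℝ) : ℂ) := by
    rw [Real.log_div hr2.ne' (pow_ne_zero 2 hnn), Real.log_pow]
    push_cast
    ring
  have hP := poisson_series h0 h1 hu
  have hL := log_series h0 h1 hu
  rw [hlog] at hL
  have hnP : Summable fun k : ℤ => ‖((r ^ k.natAbs : ℝ) : ℂ) * u ^ k‖ := by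
    refine (summable_pow_natAbs h0 h1).congr fun k => ?_
    rw [norm_mul, norm_zpow, hu, one_zpow, mul_one, Complex.norm_real, Real.norm_eq_abs,
      abs_of_nonneg (by positivity)]
  have hnL : Summable fun k : ℤ => ‖(b r k : ℂ) * u ^ k‖ := by
    refine (summable_b h0 h1).congr fun k => ?_
    rw [norm_mul, norm_zpow, hu, one_zpow, mul_one, Complex.norm_real, Real.norm_eq_abs]
  rw [Complex.ofReal_mul]
  refine conv_series hnP hnL hP hL fun n => ?_
  have h4 : HasSum (fun k : ℤ => ((b r k * r ^ (n - k).natAbs : ℝ) : ℂ)) (c r n : ℂ) :=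
    (Complex.hasSum_ofReal).2 (summable_b_mul h0 h1 n).hasSum
  have h5 := h4.mul_right (u ^ n)
  have h6 : (fun k : ℤ => ((b r k * r ^ (n - k).natAbs : ℝ) : ℂ) * u ^ n)
      = fun k : ℤ => ((r ^ (n - k).natAbs : ℝ) : ℂ) * u ^ (n - k) * ((b r k : ℂ) * u ^ k) := by
    funext k
    have h7 : u ^ n = u ^ (n - k) * u ^ k := by
      rw [← zpow_add₀ hu0, sub_add_cancel]
    rw [h7, Complex.ofReal_mul]
    ring
  rw [h6] at h5
  exact h5

theorem c_zero {r : ℝ} (h0 : 0 ≤ r) (h1 : r < 1) : c r 0 = -Real.log (1 - r ^ 2) := by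
  have h2 : |r ^ 2| < 1 := by
    rw [abs_of_nonneg (by positivity)]
    nlinarith
  have h3 := Real.hasSum_pow_div_log_of_abs_lt_one h2
  have key := hasSum_int (f := fun k : ℤ => b r k * r ^ (0 - k).natAbs)
    (x := Real.log (1 - r ^ 2)) (y := -Real.log (1 - r ^ 2)) (z := -Real.log (1 - r ^ 2))
    (by simp [b]) ?_ ?_
  · unfold c
    rw [key.tsum_eq]
    ring
  · convert! h3 using 1
    funext n
    have h6 : ((n : ℤ) + 1) ≠ 0 := by omega
    have h7 : ((n : ℤ) + 1).natAbs = n + 1 := by omega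
    have h8 : (0 - ((n : ℤ) + 1)).natAbs = n + 1 := by omega
    simp only [b, h6, if_false, h7, h8]
    push_cast
    ring
  · convert! h3 using 1
    funext n
    have h6 : (-((n : ℤ) + 1)) ≠ 0 := by omega
    have h7 : (-((n : ℤ) + 1)).natAbs = n + 1 := by omega
    have h8 : (0 - -((n : ℤ) + 1)).natAbs = n + 1 := by omega
    simp only [b, h6, if_false, h7, h8]
    push_cast
    ring

theorem tsum_abs_b {r : ℝ} (h0 : 0 ≤ r) (h1 : r < 1) :
    ∑' k : ℤ, |b r k| = -Real.log (1 - r ^ 2) - 2 * Real.log (1 - r) := by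
  have hr2 : 0 < 1 - r ^ 2 := by nlinarith
  have hlog : Real.log (1 - r ^ 2) ≤ 0 := Real.log_nonpos hr2.le (by nlinarith)
  have h2 : |r| < 1 := by rwa [abs_of_nonneg h0]
  have h3 := Real.hasSum_pow_div_log_of_abs_lt_one h2
  have key := hasSum_int (f := fun k : ℤ => |b r k|)
    (x := -Real.log (1 - r ^ 2)) (y := -Real.log (1 - r)) (z := -Real.log (1 - r))
    (by simp [b, abs_of_nonpos hlog]) ?_ ?_
  · rw [key.tsum_eq]
    ring
  · convert! h3 using 1
    funext n
    have h6 : ((n : ℤ) + 1) ≠ 0 := by omega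
    have h7 : ((n : ℤ) + 1).natAbs = n + 1 := by omega
    simp only [b, h6, if_false, h7]
    rw [abs_of_nonneg (by positivity)]
    push_cast
    ring
  · convert! h3 using 1
    funext n
    have h6 : (-((n : ℤ) + 1)) ≠ 0 := by omega
    have h7 : (-((n : ℤ) + 1)).natAbs = n + 1 := by omega
    simp only [b, h6, if_false, h7]
    rw [abs_of_nonneg (by positivity)]
    push_cast
    ring

theorem abs_pow_sub_pow_le {r : ℝ} (h0 : 0 ≤ r) (h1 : r < 1) (m n : ℕ) :
    |r ^ m - r ^ n| ≤ |(m : ℝ) - n| * (1 - r) := by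
  wlog h : m ≤ n generalizing m n
  · rw [abs_sub_comm, abs_sub_comm (m : ℝ)]
    exact this n m (by omega)
  obtain ⟨k, rfl⟩ := Nat.exists_eq_add_of_le h
  have h2 : 1 - r ^ k ≤ k * (1 - r) := by
    have := one_add_mul_le_pow (show (-2 : ℝ) ≤ r - 1 by linarith) k
    have h3 : 1 + (r - 1) = r := by ring
    rw [h3] at this
    linarith
  have h3 : r ^ k ≤ 1 := pow_le_one₀ h0 h1.le
  have h4 : r ^ m ≤ 1 := pow_le_one₀ h0 h1.le
  have h5 : 0 ≤ r ^ m := by positivity
  have h6 : r ^ m - r ^ (m + k) = r ^ m * (1 - r ^ k) := by ring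
  rw [h6, abs_of_nonneg (mul_nonneg h5 (by linarith))]
  have h7 : |(m : ℝ) - ((m + k : ℕ) : ℝ)| = k := by
    push_cast
    rw [show (m : ℝ) - (m + k) = -k by ring, abs_neg, abs_of_nonneg (by positivity)]
  rw [h7]
  calc r ^ m * (1 - r ^ k) ≤ 1 * (1 - r ^ k) := by
        apply mul_le_mul_of_nonneg_right h4 (by linarith)
    _ ≤ _ := by linarith

theorem abs_c_sub_le {r : ℝ} (h0 : 0 ≤ r) (h1 : r < 1) (n : ℤ) :
    |c r n - c r 0| ≤ (n.natAbs : ℝ) * (3 * (-((1 - r) * Real.log (1 - r)))) := by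
  have hr2 : 0 < 1 - r ^ 2 := by nlinarith
  have hlog : Real.log (1 - r) ≤ Real.log (1 - r ^ 2) :=
    Real.log_le_log (by linarith) (by nlinarith)
  unfold c
  rw [← (summable_b_mul h0 h1 n).tsum_sub (summable_b_mul h0 h1 0)]
  have h2 : ∀ k : ℤ, ‖b r k * r ^ (n - k).natAbs - b r k * r ^ (0 - k).natAbs‖
      ≤ |b r k| * (n.natAbs * (1 - r)) := by
    intro k
    rw [← mul_sub, norm_mul, Real.norm_eq_abs, Real.norm_eq_abs]
    apply mul_le_mul_of_nonneg_left _ (abs_nonneg _)
    refine (abs_pow_sub_pow_le h0 h1 _ _).trans ?_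
    apply mul_le_mul_of_nonneg_right _ (by linarith)
    rw [abs_le]
    have h3 : (n - k).natAbs ≤ (0 - k).natAbs + n.natAbs := by omega
    have h4 : (0 - k).natAbs ≤ (n - k).natAbs + n.natAbs := by omega
    have h3' : ((n - k).natAbs : ℝ) ≤ (0 - k).natAbs + n.natAbs := by exact_mod_cast h3
    have h4' : ((0 - k).natAbs : ℝ) ≤ (n - k).natAbs + n.natAbs := by exact_mod_cast h4
    constructor <;> linarith
  have h5 := tsum_of_norm_bounded ((summable_b h0 h1).mul_right _).hasSum h2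
  rw [tsum_mul_right, tsum_abs_b h0 h1, Real.norm_eq_abs] at h5
  refine h5.trans ?_
  have h6 : (0 : ℝ) ≤ n.natAbs * (1 - r) := by
    have : (0 : ℝ) ≤ 1 - r := by linarith
    positivity
  nlinarith

/-! ### Uniformly bounded functions with converging Fourier coefficients -/

theorem integral_norm_le (u : Lp ℂ 2 (@haarAddCircle (1:ℝ) _)) : ∫ t, ‖u t‖ ∂haarAddCircle ≤ ‖u‖ := by
  have hu := Lp.memLp u
  have h1 : MemLp u 1 (@haarAddCircle (1:ℝ) _) := hu.mono_exponent (by norm_num)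
  have h2 : ∫ t, ‖u t‖ ∂haarAddCircle = (eLpNorm u 1 (@haarAddCircle (1:ℝ) _)).toReal := by
    rw [eLpNorm_one_eq_lintegral_enorm, integral_norm_eq_lintegral_enorm h1.1]
  rw [h2, Lp.norm_def]
  apply ENNReal.toReal_mono hu.2.ne
  exact eLpNorm_le_eLpNorm_of_exponent_le (by norm_num) hu.1

/-- If uniformly bounded continuous functions on the circle have converging Fourier coefficients then
the limits are the Fourier coefficients of a bounded function. -/
theorem exists_bounded (a : ℤ → ℂ) (C : ℝ) (M : ℕ → C(UnitAddCircle, ℂ)) (β : ℕ → ℝ)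
    (hM : ∀ k t, ‖M k t‖ ≤ β k) (hβ : Tendsto β atTop (𝓝 C))
    (ha : ∀ n, Tendsto (fun k => fourierCoeff (M k) n) atTop (𝓝 (a n))) :
    ∃ φ : UnitAddCircle → ℂ, Measurable φ ∧ (∀ t, ‖φ t‖ ≤ C) ∧ ∀ n, fourierCoeff φ n = a n := by
  have hC : 0 ≤ C := ge_of_tendsto' hβ fun k => (norm_nonneg _).trans (hM k 0)
  set m : ℕ → Lp ℂ 2 (@haarAddCircle (1:ℝ) _) := fun k =>
    ContinuousMap.toLp (E := ℂ) 2 haarAddCircle ℂ (M k) with hm
  have hmc : ∀ k n, fourierCoeff (m k) n = fourierCoeff (M k) n := fun k n => fourierCoeff_toLp (M k) n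
  have hmae : ∀ k, ∀ᵐ t ∂(@haarAddCircle (1:ℝ) _), (m k : UnitAddCircle → ℂ) t = M k t := fun k =>
    ContinuousMap.coeFn_toLp haarAddCircle (M k)
  -- Bessel
  have hbes : ∀ F : Finset ℤ, ∑ n ∈ F, ‖a n‖ ^ 2 ≤ C ^ 2 := by
    intro F
    have h1 : Tendsto (fun k => ∑ n ∈ F, ‖fourierCoeff (M k) n‖ ^ 2) atTop
        (𝓝 (∑ n ∈ F, ‖a n‖ ^ 2)) := tendsto_finsetSum _ fun n _ => ((ha n).norm.pow 2)
    refine le_of_tendsto_of_tendsto' h1 (hβ.pow 2) fun k => ?_
    have h2 := sum_le_hasSum F (fun n _ => by positivity) (hasSum_sq_fourierCoeff (m k))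
    simp only [hmc] at h2
    refine h2.trans ?_
    have h3 : ∫ t, ‖(m k : UnitAddCircle → ℂ) t‖ ^ 2 ∂haarAddCircle
        ≤ ∫ _ : UnitAddCircle, (β k) ^ 2 ∂haarAddCircle := by
      apply integral_mono_of_nonneg
      · exact Eventually.of_forall fun t => by positivity
      · exact integrable_const _
      · filter_upwards [hmae k] with t ht
        rw [ht]
        exact pow_le_pow_left₀ (norm_nonneg _) (hM k t) 2
    simpa using h3
  have hsum : Summable fun n => ‖a n‖ ^ 2 :=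
    summable_of_sum_le (fun n => by positivity) hbes
  have hmem : Memℓp a 2 := by
    rw [memℓp_gen_iff (by norm_num)]
    simpa using hsum
  set φ₀ : Lp ℂ 2 (@haarAddCircle (1:ℝ) _) := fourierBasis.repr.symm ⟨a, hmem⟩ with hφ₀
  have hcoef : ∀ n, fourierCoeff φ₀ n = a n := by
    intro n
    rw [← fourierBasis_repr, hφ₀, LinearIsometryEquiv.apply_symm_apply]
  -- the bound against trigonometric polynomials
  have hin : ∀ (f : Lp ℂ 2 (@haarAddCircle (1:ℝ) _)) n,
      inner ℂ (fourierLp 2 n) f = fourierCoeff f n := by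
    intro f n
    rw [← fourierBasis_repr, fourierBasis.repr_apply_apply, coe_fourierBasis]
  have hspan : ∀ T ∈ Submodule.span ℂ (Set.range (@fourierLp (1:ℝ) _ 2 _)),
      Tendsto (fun k => inner ℂ T (m k)) atTop (𝓝 (inner ℂ T φ₀)) := by
    intro T hT
    induction hT using Submodule.span_induction with
    | mem x hx =>
      obtain ⟨n, rfl⟩ := hx
      simp only [hin, hmc, hcoef]
      exact ha n
    | zero => simp
    | add x y _ _ hx hy =>
      simp only [inner_add_left]
      exact hx.add hy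
    | smul c x _ hx =>
      simp only [inner_smul_left]
      exact hx.const_mul _
  have hk : ∀ (T : Lp ℂ 2 (@haarAddCircle (1:ℝ) _)) k,
      ‖inner ℂ T (m k)‖ ≤ β k * ∫ t, ‖T t‖ ∂haarAddCircle := by
    intro T k
    rw [L2.inner_def, ← integral_const_mul]
    refine (norm_integral_le_integral_norm _).trans ?_
    apply integral_mono_of_nonneg
    · exact Eventually.of_forall fun t => by positivity
    · exact (((Lp.memLp T).integrable (by norm_num)).norm).const_mul _
    · filter_upwards [hmae k] with t ht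
      rw [ht]
      refine (norm_inner_le_norm _ _).trans ?_
      rw [mul_comm]
      exact mul_le_mul_of_nonneg_right (hM k t) (norm_nonneg _)
  have hk2 : ∀ T ∈ Submodule.span ℂ (Set.range (@fourierLp (1:ℝ) _ 2 _)),
      ‖inner ℂ T φ₀‖ ≤ C * ∫ t, ‖T t‖ ∂haarAddCircle := by
    intro T hT
    exact le_of_tendsto_of_tendsto' (hspan T hT).norm (hβ.mul_const _) fun k => hk T k
  have hk3 : ∀ T : Lp ℂ 2 (@haarAddCircle (1:ℝ) _),
      ‖inner ℂ T φ₀‖ ≤ C * ∫ t, ‖T t‖ ∂haarAddCircle := by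
    intro T
    apply le_of_forall_pos_le_add
    intro ε hε
    have hT : T ∈ (Submodule.span ℂ (Set.range (@fourierLp (1:ℝ) _ 2 _))).topologicalClosure := by
      rw [span_fourierLp_closure_eq_top (by norm_num)]
      trivial
    have hpos : 0 < C + ‖φ₀‖ + 1 := by positivity
    obtain ⟨S, hS, hST⟩ := Metric.mem_closure_iff.1 hT (ε / (C + ‖φ₀‖ + 1)) (by positivity)
    rw [dist_eq_norm] at hST
    have h1 : ‖inner ℂ T φ₀‖ ≤ ‖inner ℂ S φ₀‖ + ‖T - S‖ * ‖φ₀‖ := by
      have h2 : inner ℂ T φ₀ = inner ℂ S φ₀ + inner ℂ (T - S) φ₀ := by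
        rw [← inner_add_left]
        congr 1
        abel
      rw [h2]
      refine (norm_add_le _ _).trans ?_
      gcongr
      exact norm_inner_le_norm _ _
    have h3 : ∫ t, ‖S t‖ ∂haarAddCircle ≤ ∫ t, ‖T t‖ ∂haarAddCircle + ‖T - S‖ := by
      have h4 := integral_norm_le (T - S)
      have h5 : ∫ t, ‖S t‖ ∂haarAddCircle ≤ ∫ t, (‖T t‖ + ‖(T - S : Lp ℂ 2 (@haarAddCircle (1:ℝ) _)) t‖) ∂haarAddCircle := by
        apply integral_mono_of_nonneg
        · exact Eventually.of_forall fun t => by positivity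
        · exact (((Lp.memLp T).integrable (by norm_num)).norm).add
            (((Lp.memLp (T - S)).integrable (by norm_num)).norm)
        · filter_upwards [Lp.coeFn_sub T S] with t ht
          rw [ht]
          have : (S : UnitAddCircle → ℂ) t = T t - (T t - S t) := by ring
          calc ‖(S : UnitAddCircle → ℂ) t‖ = ‖T t - (T t - S t)‖ := by rw [← this]
          _ ≤ _ := norm_sub_le _ _
      rw [integral_add (((Lp.memLp T).integrable (by norm_num)).norm)
        (((Lp.memLp (T - S)).integrable (by norm_num)).norm)] at h5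
      linarith
    have h6 := hk2 S hS
    have h7 : (C + ‖φ₀‖ + 1) * ‖T - S‖ ≤ ε := by
      have := (lt_div_iff₀ hpos).1 hST
      linarith
    have h8 : C * ∫ t, ‖S t‖ ∂haarAddCircle ≤ C * (∫ t, ‖T t‖ ∂haarAddCircle + ‖T - S‖) := by
      gcongr
    nlinarith [norm_nonneg (T - S)]
  -- pointwise bound
  have hφm : Measurable (φ₀ : UnitAddCircle → ℂ) := (Lp.stronglyMeasurable φ₀).measurable
  have hφi : Integrable (φ₀ : UnitAddCircle → ℂ) haarAddCircle := (Lp.memLp φ₀).integrable (by norm_num)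
  have hae : ∀ᵐ t ∂(@haarAddCircle (1:ℝ) _), ‖φ₀ t‖ ≤ C := by
    refine ae_le_of_forall_setIntegral_le (g := fun _ => C) hφi.norm (integrable_const _) ?_
    intro s hs _
    set T₀ : UnitAddCircle → ℂ := s.indicator fun t => φ₀ t / ‖φ₀ t‖ with hT₀
    have hT₀m : Measurable T₀ := by
      apply Measurable.indicator _ hs
      exact hφm.div (Complex.measurable_ofReal.comp hφm.norm)
    have hT₀b : ∀ t, ‖T₀ t‖ ≤ s.indicator (fun _ => (1:ℝ)) t := by
      intro t
      rw [hT₀]
      by_cases h : t ∈ s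
      · simp only [Set.indicator_of_mem h]
        rw [norm_div, Complex.norm_real, norm_norm]
        exact div_self_le_one _
      · simp [Set.indicator_of_notMem h]
    have hT₀L : MemLp T₀ 2 (@haarAddCircle (1:ℝ) _) := by
      apply MemLp.of_bound hT₀m.aestronglyMeasurable 1
      refine Eventually.of_forall fun t => (hT₀b t).trans ?_
      exact Set.indicator_le_self' (fun _ _ => zero_le_one) t |>.trans le_rfl
    have h1 := hk3 (hT₀L.toLp T₀)
    have h2 : inner ℂ (hT₀L.toLp T₀) φ₀ = ((∫ t in s, ‖φ₀ t‖ ∂haarAddCircle : ℝ) : ℂ) := by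
      rw [L2.inner_def, ← integral_indicator hs, ← integral_complex_ofReal]
      apply integral_congr_ae
      filter_upwards [hT₀L.coeFn_toLp] with t ht
      rw [ht, hT₀]
      by_cases h : t ∈ s
      · simp only [Set.indicator_of_mem h]
        rw [RCLike.inner_apply']
        by_cases h0 : φ₀ t = 0
        · simp [h0]
        · have h0' : (‖φ₀ t‖ : ℂ) ≠ 0 := by exact_mod_cast norm_ne_zero_iff.2 h0
          rw [map_div₀, Complex.conj_ofReal, div_mul_eq_mul_div, mul_comm (conj _),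
            Complex.mul_conj, Complex.normSq_eq_norm_sq]
          push_cast
          field_simp
      · simp [Set.indicator_of_notMem h]
    have h3 : ∫ t, ‖(hT₀L.toLp T₀ : UnitAddCircle → ℂ) t‖ ∂haarAddCircle ≤ ∫ t in s, (1:ℝ) ∂haarAddCircle := by
      rw [← integral_indicator hs]
      apply integral_mono_of_nonneg
      · exact Eventually.of_forall fun t => by positivity
      · exact (integrable_const _).indicator hs
      · filter_upwards [hT₀L.coeFn_toLp] with t ht
        rw [ht]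
        exact hT₀b t
    rw [h2, Complex.norm_real, Real.norm_eq_abs] at h1
    have h4 : ∫ t in s, (fun _ => C) t ∂(@haarAddCircle (1:ℝ) _) = C * ∫ t in s, (1:ℝ) ∂haarAddCircle := by
      rw [← integral_const_mul]
      simp
    rw [h4]
    calc ∫ t in s, ‖φ₀ t‖ ∂haarAddCircle ≤ _ := le_abs_self _
    _ ≤ _ := h1
    _ ≤ _ := by gcongr
  refine ⟨fun t => if ‖φ₀ t‖ ≤ C then φ₀ t else 0, ?_, ?_, ?_⟩
  · exact Measurable.ite (measurableSet_le hφm.norm measurable_const) hφm measurable_const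
  · intro t
    dsimp only
    split_ifs with h
    · exact h
    · simpa using hC
  · intro n
    rw [← hcoef n]
    refine congrFun (fourierCoeff_congr_ae ?_) n
    filter_upwards [hae] with t ht
    simp [ht]


/-! ### Laurent coefficients -/

theorem continuous_pt : Continuous pt := continuous_induced_dom.comp AddCircle.continuous_toCircle

/-- Fourier coefficients of real-analytic functions decay geometrically. -/
theorem RA_coeff {g : UnitAddCircle → ℂ} (hg : g ∈ RA) :
    ∃ L s : ℝ, 0 < s ∧ s < 1 ∧ (∀ n, ‖fourierCoeff g n‖ ≤ L * s ^ n.natAbs) ∧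
      ∀ t, HasSum (fun n => fourierCoeff g n * pt t ^ n) (g t) := by
  obtain ⟨q, hq, G, hG, hgG⟩ := hg
  obtain ⟨ρ, hρ1, hρq⟩ := exists_between hq
  have hρ0 : 0 < ρ := by linarith
  have hsub : ∀ w : ℂ, ρ⁻¹ ≤ ‖w‖ → ‖w‖ ≤ ρ → w ∈ annulus q := by
    intro w h1 h2
    refine ⟨lt_of_lt_of_le ?_ h1, lt_of_le_of_lt h2 hρq⟩
    exact inv_strictAnti₀ hρ0 hρq
  have hK : IsCompact {w : ℂ | ρ⁻¹ ≤ ‖w‖ ∧ ‖w‖ ≤ ρ} := by
    apply (isCompact_closedBall (0 : ℂ) ρ).of_isClosed_subset
    · exact (isClosed_le continuous_const continuous_norm).inter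
        (isClosed_le continuous_norm continuous_const)
    · intro w hw
      simpa using hw.2
  obtain ⟨M, hM⟩ := hK.exists_bound_of_continuousOn (hG.continuousOn.mono fun w hw => hsub w hw.1 hw.2)
  have hcont : Continuous g := by
    have : g = fun t => G (pt t) := funext hgG
    rw [this, continuous_iff_continuousAt]
    intro t
    exact ((hG.continuousOn.continuousAt ((isOpen_annulus q).mem_nhds (pt_mem_annulus hq t)))).comp
      continuous_pt.continuousAt
  -- the coefficient as a circle integral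
  have hcoef : ∀ n : ℤ, (∮ z in C(0, 1), (z - 0)⁻¹ • (G z * z ^ (-n)))
      = 2 * Real.pi * I * fourierCoeff g n := by
    intro n
    rw [fourierCoeff_eq_intervalIntegral g n 0, circleIntegral]
    have h1 : ∀ θ : ℝ, deriv (circleMap 0 1) θ • ((circleMap 0 1 θ - 0)⁻¹ •
        (G (circleMap 0 1 θ) * circleMap 0 1 θ ^ (-n)))
        = I * (fun x : ℝ => fourier (-n) (x : UnitAddCircle) • g (x : UnitAddCircle)) (θ * (2 * Real.pi)⁻¹) := by
      intro θ
      have h2 : circleMap 0 1 θ = pt ((θ * (2 * Real.pi)⁻¹ : ℝ) : UnitAddCircle) := by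
        rw [pt, AddCircle.toCircle_apply_mk, Circle.coe_exp]
        simp only [circleMap, Complex.ofReal_one, one_mul, zero_add]
        congr 2
        push_cast
        field_simp
      have h3 : circleMap 0 1 θ ≠ 0 := circleMap_ne_center one_ne_zero
      rw [deriv_circleMap, sub_zero]
      simp only [smul_eq_mul]
      rw [fourier_eq, hgG, ← h2]
      field_simp
    simp only [h1]
    rw [intervalIntegral.integral_const_mul]
    rw [intervalIntegral.integral_comp_mul_right (fun x : ℝ => fourier (-n) (x : UnitAddCircle) • g (x : UnitAddCircle)) (by positivity)]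
    have h4 : 2 * Real.pi * (2 * Real.pi)⁻¹ = 1 := by
      field_simp
    rw [h4]
    simp only [zero_mul, zero_add, inv_inv]
    simp
    ring
  have hshift : ∀ (n : ℤ) (R₁ R₂ : ℝ), ρ⁻¹ ≤ R₁ → R₁ ≤ R₂ → R₂ ≤ ρ →
      (∮ z in C(0, R₂), (z - 0)⁻¹ • (G z * z ^ (-n))) = ∮ z in C(0, R₁), (z - 0)⁻¹ • (G z * z ^ (-n)) := by
    intro n R₁ R₂ h1 h2 h3
    have hR₁ : 0 < R₁ := lt_of_lt_of_le (by positivity) h1
    have hd : ∀ z : ℂ, R₁ ≤ ‖z‖ → ‖z‖ ≤ R₂ → DifferentiableAt ℂ (fun z => G z * z ^ (-n)) z := by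
      intro z hz1 hz2
      have hz0 : z ≠ 0 := by
        intro h
        rw [h, norm_zero] at hz1
        linarith
      exact (hG.differentiableAt ((isOpen_annulus q).mem_nhds (hsub z (h1.trans hz1) (hz2.trans h3)))).mul
        (differentiableAt_zpow.2 (Or.inl hz0))
    apply circleIntegral_sub_center_inv_smul_eq_of_differentiable_on_annulus_off_countable hR₁ h2
      (s := ∅) Set.countable_empty
    · intro z hz
      have hz1 : R₁ ≤ ‖z‖ := by
        have := hz.2
        simpa using this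
      have hz2 : ‖z‖ ≤ R₂ := by
        have := hz.1
        simpa using this
      exact (hd z hz1 hz2).continuousAt.continuousWithinAt
    · intro z hz
      have hz1 : R₁ ≤ ‖z‖ := by
        have := hz.1.2
        simp only [Metric.mem_closedBall, dist_zero_right, not_le] at this
        exact this.le
      have hz2 : ‖z‖ ≤ R₂ := by
        have := hz.1.1
        simp only [Metric.mem_ball, dist_zero_right] at this
        exact this.le
      exact hd z hz1 hz2
  have hbound : ∀ (n : ℤ) (R : ℝ), ρ⁻¹ ≤ R → R ≤ ρ →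
      ‖∮ z in C(0, R), (z - 0)⁻¹ • (G z * z ^ (-n))‖ ≤ 2 * Real.pi * (M * R ^ (-n)) := by
    intro n R h1 h2
    have hR : 0 < R := lt_of_lt_of_le (by positivity) h1
    have := circleIntegral.norm_integral_le_of_norm_le_const (c := (0 : ℂ)) (R := R)
      (f := fun z => (z - 0)⁻¹ • (G z * z ^ (-n))) (C := R⁻¹ * (M * R ^ (-n))) hR.le ?_
    · refine this.trans (le_of_eq ?_)
      field_simp
    · intro z hz
      have hz1 : ‖z‖ = R := by simpa using hz
      rw [sub_zero, norm_smul, norm_inv, norm_mul, norm_zpow, hz1]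
      gcongr
      exact hM z ⟨hz1 ▸ h1, hz1 ▸ h2⟩
  have hρi : ρ⁻¹ ≤ 1 := inv_le_one_of_one_le₀ hρ1.le
  have hle : ∀ n : ℤ, ‖fourierCoeff g n‖ ≤ M * ρ⁻¹ ^ n.natAbs := by
    intro n
    have h1 : ‖∮ z in C(0, 1), (z - 0)⁻¹ • (G z * z ^ (-n))‖ ≤ 2 * Real.pi * (M * ρ⁻¹ ^ n.natAbs) := by
      rcases le_total 0 n with h | h
      · rw [← hshift n 1 ρ hρi hρ1.le le_rfl]
        refine (hbound n ρ (hρi.trans hρ1.le) le_rfl).trans (le_of_eq ?_)
        obtain ⟨k, rfl⟩ := Int.eq_ofNat_of_zero_le h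
        simp
      · rw [hshift n ρ⁻¹ 1 le_rfl hρi hρ1.le]
        refine (hbound n ρ⁻¹ le_rfl (hρi.trans hρ1.le)).trans (le_of_eq ?_)
        obtain ⟨k, hk⟩ := Int.eq_ofNat_of_zero_le (neg_nonneg.2 h)
        have : n = -(k : ℤ) := by omega
        subst this
        simp
    rw [hcoef] at h1
    rw [norm_mul, norm_mul, norm_mul] at h1
    simp only [Complex.norm_ofNat, Complex.norm_real, Real.norm_eq_abs, abs_of_pos Real.pi_pos,
      Complex.norm_I, mul_one] at h1
    exact le_of_mul_le_mul_left h1 (by positivity)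
  have hρlt : ρ⁻¹ < 1 := inv_lt_one_of_one_lt₀ hρ1
  refine ⟨M, ρ⁻¹, by positivity, hρlt, hle, fun t => ?_⟩
  have hsum : Summable (fourierCoeff ((⟨g, hcont⟩ : C(UnitAddCircle, ℂ)) : UnitAddCircle → ℂ)) := by
    apply Summable.of_norm_bounded ((summable_pow_natAbs (by positivity) hρlt).mul_left M)
    exact hle
  have := has_pointwise_sum_fourier_series_of_summable hsum t
  simp only [fourier_eq, smul_eq_mul] at this
  exact this


/-! ### The biharmonic Poisson transform -/

theorem exists_pt {z : ℂ} : ∃ α : UnitAddCircle, z = (‖z‖ : ℂ) * pt α := by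
  refine ⟨((z.arg * (2 * Real.pi)⁻¹ : ℝ) : UnitAddCircle), ?_⟩
  have : pt ((z.arg * (2 * Real.pi)⁻¹ : ℝ) : UnitAddCircle) = Complex.exp (z.arg * I) := by
    rw [pt, AddCircle.toCircle_apply_mk, Circle.coe_exp]
    congr 2
    push_cast
    field_simp
  rw [this, Complex.norm_mul_exp_arg_mul_I]

theorem kernel_hasSum {r : ℝ} (h0 : 0 ≤ r) (h1 : r < 1) (α t : UnitAddCircle) :
    HasSum (fun n : ℤ => ((c r n : ℂ) * (pt α) ^ (-n)) * pt t ^ n) (kernel (r * pt α) t) := by
  have hu : ‖pt t * (pt α)⁻¹‖ = 1 := by rw [norm_mul, norm_inv, pt_norm, pt_norm]; simp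
  have h2 := kernel_series h0 h1 hu
  have hα := pt_ne_zero α
  have ht := pt_ne_zero t
  have h3 : ‖pt t - r * pt α‖ = ‖1 - r * (pt t * (pt α)⁻¹)‖ := by
    have hconj : ∀ s, conj (pt s) = (pt s)⁻¹ := by
      intro s
      rw [Complex.inv_def, Complex.normSq_eq_norm_sq, pt_norm]; simp
    have h4 : ‖pt t - r * pt α‖ = ‖conj (pt t - r * pt α)‖ := (RCLike.norm_conj _).symm
    rw [h4, map_sub, map_mul, Complex.conj_ofReal, hconj, hconj]
    have h5 : (pt t)⁻¹ - (r : ℂ) * (pt α)⁻¹ = (pt t)⁻¹ * (1 - r * (pt t * (pt α)⁻¹)) := by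
      field_simp
    rw [h5, norm_mul, norm_inv, pt_norm]
    simp
  have h6 : kernel (r * pt α) t = (((1 - r ^ 2) / ‖1 - r * (pt t * (pt α)⁻¹)‖ ^ 2 *
      Real.log ((1 - r ^ 2) / ‖1 - r * (pt t * (pt α)⁻¹)‖ ^ 2) : ℝ) : ℂ) := by
    unfold kernel poisson
    rw [h3, norm_mul, pt_norm, mul_one, Complex.norm_real, Real.norm_eq_abs, abs_of_nonneg h0]
  rw [h6]
  have h7 : (fun n : ℤ => ((c r n : ℂ) * (pt α) ^ (-n)) * pt t ^ n)
      = fun n : ℤ => (c r n : ℂ) * (pt t * (pt α)⁻¹) ^ n := by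
    funext n
    rw [mul_zpow, inv_zpow', zpow_neg]
    ring
  rw [h7]
  exact h2

theorem coeff_bound {r : ℝ} (h0 : 0 ≤ r) (h1 : r < 1) :
    ∃ L s : ℝ, 0 < s ∧ s < 1 ∧ ∀ (α : UnitAddCircle) (n : ℤ),
      ‖(c r n : ℂ) * (pt α) ^ (-n)‖ ≤ L * s ^ n.natAbs := by
  obtain ⟨L, hL⟩ := abs_c_le h0 h1
  have hL0 : 0 ≤ L := by
    have := (abs_nonneg _).trans (hL 0)
    simpa using this
  refine ⟨L, max √r (1 / 2), by positivity, max_lt ?_ (by norm_num), fun α n => ?_⟩
  · rw [Real.sqrt_lt' one_pos]; simpa using h1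
  · rw [norm_mul, norm_zpow, pt_norm, one_zpow, mul_one, Complex.norm_real, Real.norm_eq_abs]
    refine (hL n).trans ?_
    gcongr
    exact le_max_left _ _

/-- `P log P` is a real-analytic function on the circle. -/
theorem kernel_mem {z : ℂ} (hz : ‖z‖ < 1) : kernel z ∈ RA := by
  obtain ⟨α, hα⟩ := @exists_pt z
  obtain ⟨L, s, hs0, hs1, hb⟩ := coeff_bound (norm_nonneg z) hz
  obtain ⟨q, hq1, hsum, hle, hdiff⟩ := laurent hs0 hs1 (hb α)
  refine ⟨q, hq1, fun w => ∑' n : (Set.univ : Set ℤ), ((c ‖z‖ n : ℂ) * (pt α) ^ (-(n : ℤ))) *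
    w ^ (n : ℤ), hdiff Set.univ, fun t => ?_⟩
  have h2 := kernel_hasSum (norm_nonneg z) hz α t
  rw [← hα] at h2
  rw [← h2.tsum_eq]
  exact (tsum_univ fun n : ℤ => ((c ‖z‖ n : ℂ) * (pt α) ^ (-n)) * pt t ^ n).symm

/-- The biharmonic Poisson transform `f(z) = ν(P_1(z, ·))`, `|z| < 1`. -/
noncomputable def transform (ν : AnalyticFunctional) (z : ℂ) (hz : ‖z‖ < 1) : ℂ :=
  ν.toLin ⟨kernel z, kernel_mem hz⟩

/-- The functions `ξ ↦ ξ^n`. -/
noncomputable def e (n : ℤ) : RA :=
  ⟨fun t => pt t ^ n, 2, by norm_num, fun w => w ^ n, by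
    intro w hw
    have hw0 : w ≠ 0 := by
      intro h
      have := hw.1
      rw [h, norm_zero] at this
      norm_num at this
    exact (differentiableAt_zpow.2 (Or.inl hw0)).differentiableWithinAt, fun _ => rfl⟩

theorem transform_hasSum (ν : AnalyticFunctional) {r : ℝ} (h0 : 0 ≤ r) (h1 : r < 1)
    (α : UnitAddCircle) (hz : ‖(r : ℂ) * pt α‖ < 1) :
    HasSum (fun n : ℤ => ((c r n : ℂ) * (pt α) ^ (-n)) * ν.toLin (e n))
      (transform ν (r * pt α) hz) := by
  obtain ⟨L, s, hs0, hs1, hb⟩ := coeff_bound h0 h1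
  obtain ⟨hmem, h2⟩ := apply_series ν hs0 hs1 (hb α) (kernel_hasSum h0 h1 α)
  exact h2 e fun n t => rfl

theorem coeff_of_hasSum {δ : ℤ → ℂ} {M : C(UnitAddCircle, ℂ)}
    (h : HasSum (fun n => δ n • (fourier n : C(UnitAddCircle, ℂ))) M) (n : ℤ) :
    fourierCoeff M n = δ n := by
  have hin : ∀ (f : Lp ℂ 2 (@haarAddCircle (1:ℝ) _)) n,
      inner ℂ (fourierLp 2 n) f = fourierCoeff f n := by
    intro f n
    rw [← fourierBasis_repr, fourierBasis.repr_apply_apply, coe_fourierBasis]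
  let Φ : C(UnitAddCircle, ℂ) →L[ℂ] ℂ := (innerSL ℂ (fourierLp (T := (1:ℝ)) 2 n)).comp
    (ContinuousMap.toLp (E := ℂ) 2 haarAddCircle ℂ)
  have hΦ : ∀ f : C(UnitAddCircle, ℂ), Φ f = fourierCoeff f n := by
    intro f
    change inner ℂ (fourierLp 2 n) (ContinuousMap.toLp (E := ℂ) 2 haarAddCircle ℂ f) = _
    rw [hin, fourierCoeff_toLp]
  have h2 := Φ.hasSum h
  rw [hΦ] at h2
  have h3 : HasSum (fun m => Φ (δ m • (fourier m : C(UnitAddCircle, ℂ)))) (δ n) := by
    have h4 : ∀ m, Φ (δ m • (fourier m : C(UnitAddCircle, ℂ))) = if m = n then δ n else 0 := by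
      intro m
      rw [map_smul, hΦ, fourierCoeff_fourier]
      by_cases hm : m = n
      · subst hm; simp
      · simp [hm, Ne.symm hm]
    simp_rw [h4]
    exact hasSum_ite_eq n (δ n)
  exact h2.unique h3

/-- If the biharmonic Poisson transform of an analytic functional `ν` is bounded by `C (1 + R)`, where
`R = log ((1 + |z|)/(1 - |z|))`, then `ν` is given by a density bounded by `C`. -/
theorem result (ν : AnalyticFunctional) (C : ℝ)
    (h : ∀ (z : ℂ) (hz : ‖z‖ < 1),
      ‖transform ν z hz‖ ≤ C * (1 + Real.log ((1 + ‖z‖) / (1 - ‖z‖)))) :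
    ∃ φ : UnitAddCircle → ℂ, Measurable φ ∧ (∀ t, ‖φ t‖ ≤ C) ∧
      ∀ g : RA, ν.toLin g = ∫ t, (g : UnitAddCircle → ℂ) t * φ t ∂haarAddCircle := by
  set N : ℤ → ℂ := fun n => ν.toLin (e n) with hN
  -- radii
  set x : ℕ → ℝ := fun k => 1 / ((k : ℝ) + 2) with hx
  have hx0 : ∀ k, 0 < x k := fun k => by positivity
  have hx1 : ∀ k, x k ≤ 1 / 2 := fun k => by
    rw [hx]
    apply one_div_le_one_div_of_le (by norm_num)
    have : (0 : ℝ) ≤ k := by positivity
    linarith
  have hxt : Tendsto x atTop (𝓝[>] 0) := by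
    rw [tendsto_nhdsWithin_iff]
    refine ⟨?_, Eventually.of_forall fun k => hx0 k⟩
    have := (tendsto_one_div_add_atTop_nhds_zero_nat (𝕜 := ℝ)).comp (tendsto_add_atTop_nat 1)
    refine this.congr fun k => ?_
    simp only [hx, Function.comp]
    push_cast
    ring
  set r : ℕ → ℝ := fun k => 1 - x k with hr
  have hr0 : ∀ k, 0 ≤ r k := fun k => by have := hx1 k; simp only [hr]; linarith
  have hr1 : ∀ k, r k < 1 := fun k => by have := hx0 k; simp only [hr]; linarith
  have hc0 : ∀ k, c (r k) 0 = -Real.log (x k) - Real.log (2 - x k) := by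
    intro k
    have h2 : 0 < 2 - x k := by linarith [hx1 k]
    rw [c_zero (hr0 k) (hr1 k)]
    have : 1 - r k ^ 2 = x k * (2 - x k) := by simp only [hr]; ring
    rw [this, Real.log_mul (hx0 k).ne' h2.ne']
    ring
  have hlog2 : Tendsto (fun k => Real.log (2 - x k)) atTop (𝓝 (Real.log 2)) := by
    have h2 : Tendsto (fun k => 2 - x k) atTop (𝓝 (2 - 0)) :=
      tendsto_const_nhds.sub (hxt.mono_right nhdsWithin_le_nhds)
    rw [sub_zero] at h2
    exact (Real.continuousAt_log (by norm_num)).tendsto.comp h2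
  have hlogx : Tendsto (fun k => -Real.log (x k)) atTop atTop :=
    tendsto_neg_atBot_atTop.comp (Real.tendsto_log_nhdsGT_zero.comp hxt)
  have hc0t : Tendsto (fun k => c (r k) 0) atTop atTop := by
    simp_rw [hc0, sub_eq_add_neg]
    exact hlogx.atTop_add hlog2.neg
  have hc0pos : ∀ k, 0 < c (r k) 0 := by
    intro k
    rw [c_zero (hr0 k) (hr1 k)]
    have h2 : 1 - r k ^ 2 < 1 := by
      have : 1 / 2 ≤ r k := by have := hx1 k; simp only [hr]; linarith
      nlinarith
    have h3 : 0 < 1 - r k ^ 2 := by nlinarith [hr0 k, hr1 k]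
    have := Real.log_neg h3 h2
    linarith
  -- coefficients
  have hcn : ∀ n, Tendsto (fun k => c (r k) n / c (r k) 0) atTop (𝓝 1) := by
    intro n
    have h2 : Tendsto (fun k => c (r k) n - c (r k) 0) atTop (𝓝 0) := by
      have h3 : Tendsto (fun k => (n.natAbs : ℝ) * (3 * (-(x k * Real.log (x k))))) atTop (𝓝 0) := by
        have h4 : Tendsto (fun k => x k * Real.log (x k)) atTop (𝓝 (0 * Real.log 0)) :=
          (Real.continuous_mul_log.tendsto 0).comp (hxt.mono_right nhdsWithin_le_nhds)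
        have h5 := ((h4.neg).const_mul 3).const_mul (n.natAbs : ℝ)
        simpa using h5
      apply squeeze_zero_norm (fun k => ?_) h3
      have h6 := abs_c_sub_le (hr0 k) (hr1 k) n
      have h7 : 1 - r k = x k := by simp only [hr]; ring
      rw [h7] at h6
      exact h6
    have h3 : Tendsto (fun k => 1 + (c (r k) n - c (r k) 0) * (c (r k) 0)⁻¹) atTop (𝓝 (1 + 0 * 0)) :=
      tendsto_const_nhds.add (h2.mul hc0t.inv_tendsto_atTop)
    rw [mul_zero, add_zero] at h3
    refine h3.congr fun k => ?_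
    have := (hc0pos k).ne'
    field_simp
    ring
  -- the functions
  set δ : ℕ → ℤ → ℂ := fun k n => (c (r k) (-n) : ℂ) * N (-n) / (c (r k) 0 : ℂ) with hδ
  have hnorm : ∀ k (α : UnitAddCircle), ‖(r k : ℂ) * pt α‖ = r k := by
    intro k α
    rw [norm_mul, pt_norm, mul_one, Complex.norm_real, Real.norm_eq_abs, abs_of_nonneg (hr0 k)]
  have hlt : ∀ k (α : UnitAddCircle), ‖(r k : ℂ) * pt α‖ < 1 := fun k α => by
    rw [hnorm]; exact hr1 k
  have htr : ∀ k (α : UnitAddCircle), HasSum (fun n => δ k n * pt α ^ n)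
      (transform ν (r k * pt α) (hlt k α) / (c (r k) 0 : ℂ)) := by
    intro k α
    have h2 := transform_hasSum ν (hr0 k) (hr1 k) α (hlt k α)
    have h3 := ((Equiv.neg ℤ).hasSum_iff.2 h2).div_const (c (r k) 0 : ℂ)
    have h4 : (fun n => δ k n * pt α ^ n) = fun n => ((fun n : ℤ => ((c (r k) n : ℂ) * (pt α) ^ (-n)) *
        ν.toLin (e n)) ∘ (Equiv.neg ℤ)) n / (c (r k) 0 : ℂ) := by
      funext n
      simp only [hδ, hN, Function.comp, Equiv.neg_apply, neg_neg]
      ring
    rw [h4]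
    exact h3
  have hδs : ∀ k, Summable fun n => ‖δ k n • (fourier n : C(UnitAddCircle, ℂ))‖ := by
    intro k
    have h2 := (htr k 0).summable.norm
    refine h2.congr fun n => ?_
    rw [norm_smul, fourier_norm, norm_mul, norm_zpow, pt_norm, one_zpow]
  set M : ℕ → C(UnitAddCircle, ℂ) := fun k => ∑' n, δ k n • (fourier n : C(UnitAddCircle, ℂ)) with hM
  have hMs : ∀ k, HasSum (fun n => δ k n • (fourier n : C(UnitAddCircle, ℂ))) (M k) := fun k =>
    (hδs k).of_norm.hasSum
  have hMt : ∀ k α, M k α = transform ν (r k * pt α) (hlt k α) / (c (r k) 0 : ℂ) := by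
    intro k α
    have h2 := (ContinuousMap.evalCLM ℂ α).hasSum (hMs k)
    have h3 : HasSum (fun n => δ k n * pt α ^ n) (M k α) := by
      refine h2.congr_fun fun n => ?_
      have h4 : (ContinuousMap.evalCLM ℂ α) (δ k n • (fourier n : C(UnitAddCircle, ℂ)))
          = δ k n * fourier n α := rfl
      rw [h4, fourier_eq]
    exact h3.unique (htr k α)
  set β : ℕ → ℝ := fun k => C * (1 + Real.log ((1 + r k) / (1 - r k))) / c (r k) 0 with hβ
  have hMβ : ∀ k t, ‖M k t‖ ≤ β k := by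
    intro k t
    rw [hMt, norm_div, Complex.norm_real, Real.norm_eq_abs, abs_of_pos (hc0pos k), hβ]
    have h2 := h (r k * pt t) (hlt k t)
    rw [hnorm] at h2
    exact div_le_div_of_nonneg_right h2 (hc0pos k).le
  have hβt : Tendsto β atTop (𝓝 C) := by
    have h2 : Tendsto (fun k => C * (1 + (1 + 2 * Real.log (2 - x k)) * (c (r k) 0)⁻¹)) atTop
        (𝓝 (C * (1 + (1 + 2 * Real.log 2) * 0))) := by
      apply Tendsto.const_mul
      apply tendsto_const_nhds.add
      exact (tendsto_const_nhds.add (hlog2.const_mul 2)).mul hc0t.inv_tendsto_atTop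
    rw [mul_zero, add_zero, mul_one] at h2
    refine h2.congr fun k => ?_
    have h3 := (hc0pos k).ne'
    have h4 : Real.log ((1 + r k) / (1 - r k)) = Real.log (2 - x k) - Real.log (x k) := by
      have h5 : 1 + r k = 2 - x k := by simp only [hr]; ring
      have h6 : 1 - r k = x k := by simp only [hr]; ring
      rw [h5, h6, Real.log_div (by linarith [hx1 k]) (hx0 k).ne']
    simp only [hβ]
    rw [h4]
    have h7 : -Real.log (x k) = c (r k) 0 + Real.log (2 - x k) := by rw [hc0]; ring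
    field_simp
    rw [show Real.log (2 - x k) - Real.log (x k) = c (r k) 0 + 2 * Real.log (2 - x k) by linarith]
    ring
  have hcoefM : ∀ n, Tendsto (fun k => fourierCoeff (M k) n) atTop (𝓝 (N (-n))) := by
    intro n
    have h2 : ∀ k, fourierCoeff (M k) n = ((c (r k) (-n) / c (r k) 0 : ℝ) : ℂ) * N (-n) := by
      intro k
      rw [coeff_of_hasSum (hMs k), hδ]
      push_cast
      ring
    simp_rw [h2]
    have h3 := (Complex.continuous_ofReal.tendsto 1).comp (hcn (-n))
    have h4 := h3.mul_const (N (-n))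
    simpa using h4
  obtain ⟨φ, hφm, hφb, hφc⟩ := exists_bounded (fun n => N (-n)) C M β hMβ hβt hcoefM
  refine ⟨φ, hφm, hφb, fun g => ?_⟩
  obtain ⟨L, s, hs0, hs1, hle, hgs⟩ := RA_coeff g.2
  obtain ⟨hmem, h2⟩ := apply_series ν hs0 hs1 hle hgs
  have h3 := h2 e fun n t => rfl
  have h4 : HasSum (fun n => ∫ t, fourierCoeff (g : UnitAddCircle → ℂ) n * pt t ^ n * φ t ∂haarAddCircle)
      (∫ t, ∑' n, fourierCoeff (g : UnitAddCircle → ℂ) n * pt t ^ n * φ t ∂haarAddCircle) := by
    apply hasSum_integral_of_summable_integral_norm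
    · intro n
      apply Integrable.of_bound (C := L * s ^ n.natAbs * C)
      · apply Measurable.aestronglyMeasurable
        exact ((continuous_pt.measurable.pow_const n).const_mul _).mul hφm
      · refine Eventually.of_forall fun t => ?_
        rw [norm_mul, norm_mul, norm_zpow, pt_norm, one_zpow, mul_one]
        exact mul_le_mul (hle n) (hφb t) (norm_nonneg _) ((norm_nonneg _).trans (hle n))
    · apply Summable.of_nonneg_of_le (fun n => integral_nonneg fun t => norm_nonneg _) (fun n => ?_)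
        (((summable_pow_natAbs hs0.le hs1).mul_left L).mul_right C)
      have h5 : ∫ t, ‖fourierCoeff (g : UnitAddCircle → ℂ) n * pt t ^ n * φ t‖ ∂haarAddCircle
          ≤ ∫ _ : UnitAddCircle, L * s ^ n.natAbs * C ∂haarAddCircle := by
        apply integral_mono_of_nonneg
        · exact Eventually.of_forall fun t => norm_nonneg _
        · exact integrable_const _
        · refine Eventually.of_forall fun t => ?_
          simp only
          rw [norm_mul, norm_mul, norm_zpow, pt_norm, one_zpow, mul_one]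
          exact mul_le_mul (hle n) (hφb t) (norm_nonneg _) ((norm_nonneg _).trans (hle n))
      simpa using h5
  have h5 : (∫ t, ∑' n, fourierCoeff (g : UnitAddCircle → ℂ) n * pt t ^ n * φ t ∂haarAddCircle)
      = ∫ t, (g : UnitAddCircle → ℂ) t * φ t ∂haarAddCircle := by
    congr 1
    funext t
    rw [tsum_mul_right, (hgs t).tsum_eq]
  rw [h5] at h4
  have h6 : (fun n => ∫ t, fourierCoeff (g : UnitAddCircle → ℂ) n * pt t ^ n * φ t ∂haarAddCircle)
      = fun n => fourierCoeff (g : UnitAddCircle → ℂ) n * ν.toLin (e n) := by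
    funext n
    have h7 : fourierCoeff φ (-n) = ν.toLin (e n) := by
      rw [hφc]
      simp [hN]
    rw [← h7]
    change _ = _ * ∫ t, fourier (- -n) t • φ t ∂haarAddCircle
    rw [← integral_const_mul]
    congr 1
    funext t
    rw [neg_neg, fourier_eq, smul_eq_mul]
    ring
  rw [h6] at h4
  exact h3.unique h4

end Pool.Agent.Results.MP_a0f451_an.BoundedDensity
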